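import Pool.Agent.Helper50.LF.Names

/-!
# Project LF: the definition of `phV` (shared by LF-4 and LF-5)
-/

set_option autoImplicit false
set_option linter.unusedSectionVars false

namespace Pool.Agent.Helper50.LF

open Pool.Agent.Helper33.HM Pool.Agent.Helper94.BA
open Pool.Agent.Helper32.FR (wt nd PN okV avV accS)

section Gen

variable {B : Type 1} [CompleteBooleanAlgebra B]

/-- The name of the function `k ↦ least v` such that some node of weight less than `v` is a
witness for `accS` and `k` (and `0` if there is no witness). -/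
def phV (X : ℕ → ℕ → B) (m : ℕ) (A : ℕ → B) (t : Node) (k v : ℕ) : B :=
  (⨆ n : ℕ, ⨆ _ : PN t k (nd n) ∧ wt (nd n) < v,
    A n ⊓ ⨅ i : ℕ, ⨅ _ : i < m, (okV t (X i) ⇨ avV t (X i) (nd n))) ⊔ (accS X m A t k)ᶜ

end Gen

end Pool.Agent.Helper50.LF
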