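import Pool.Agent.Helper28.LF.PhV
import Pool.Agent.Helper32.FR.Defs
import Pool.Agent.Helper82.BA.Coding

/-!
# Project LF, LF-5: the nodes of `A` with small entries
-/

set_option autoImplicit false
set_option linter.unusedSectionVars false

namespace Pool.Agent.Helper50.LF

open Pool.Agent.Helper33.HM Pool.Agent.Helper94.BA
open Pool.Agent.Helper32.FR (wt nd PN okV avV lsV valV incV accS accV piV Scale Bdg)

section Gen

variable {B : Type 1} [CompleteBooleanAlgebra B] {c : Ordinal.{0} → ℕ → B}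

/-- The nodes of `A` whose entries beyond `t ++ [j]` are less than the values of `c γ`. -/
def subA (x : ℕ → B) (A : ℕ → B) (t : Node) (n : ℕ) : B :=
  A n ⊓ ⨅ i : ℕ, ⨅ h : i < (nd n).length, ⨅ _ : t.length < i,
    (decV x (wt ((nd n).take i)) (nd n)[i])ᶜ

theorem h28_mono (x : ℕ → B) (m : ℕ) {j k : ℕ} (h : j ≤ k) : decV x m j ≤ decV x m k :=
  monotone_nat_of_le_succ ((decV_isFn x).mono m) h

theorem h28_inc {x : ℕ → B} (hx : incV x = ⊤) {m m' : ℕ} (h : m ≤ m') (j : ℕ) :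
    decV x m' j ≤ decV x m j := by
  induction m', h using Nat.le_induction with
  | base => exact le_rfl
  | succ n hn ih =>
    refine le_trans ?_ ih
    have h1 : (⊤ : B) ≤ decV x (n + 1) j ⇨ ⨆ i : ℕ, ⨆ _ : i < j, decV x n i := by
      rw [← hx]
      exact (iInf_le _ n).trans (iInf_le _ j)
    rw [le_himp_iff, top_inf_eq] at h1
    exact h1.trans (iSup₂_le fun i hi => h28_mono x n hi.le)

theorem h28_sup_eqN (x : ℕ → B) (n : ℕ) : ⨆ v, eqN (decV x n) v = ⊤ := by
  refine top_le_iff.1 ?_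
  rw [← (decV_isFn x).tot n]
  refine iSup_le fun k => ?_
  rw [← h82_eqN_sup ((decV_isFn x).mono n) k]
  exact iSup₂_le fun j _ => le_iSup (fun v => eqN (decV x n) v) j

theorem h28_eqN_compl (x : ℕ → B) (n : ℕ) {j v : ℕ} (h : j < v) :
    eqN (decV x n) v ≤ (decV x n j)ᶜ :=
  inf_le_right.trans (iInf₂_le j h)

theorem h28_wt {t : Node} {k : ℕ} {s : Node} (hs : PN t k s) {i : ℕ} (hi : t.length < i) :
    k ≤ wt (s.take i) := by
  obtain ⟨j, u, hj, rfl⟩ := hs
  obtain ⟨r, rfl⟩ : ∃ r, i = t.length + (r + 1) := ⟨i - t.length - 1, by omega⟩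
  have h1 : (t ++ (j :: u)).take (t.length + (r + 1)) = t ++ (j :: u.take r) := by
    rw [List.take_length_add_append, List.take_succ_cons]
  rw [h1]
  unfold Pool.Agent.Helper32.FR.wt
  simp only [List.sum_append, List.sum_cons]
  omega

theorem h28_entry (s : Node) (i : ℕ) (h : i < s.length) : s[i] ≤ wt s := by
  have h1 : s[i] ≤ s.sum := List.single_le_sum (fun _ _ => Nat.zero_le _) _ (List.getElem_mem h)
  unfold Pool.Agent.Helper32.FR.wt
  omega

theorem accV_subA {γ : Ordinal.{0}} (hc : Scale c) {A : ℕ → B} {t : Node}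
    (h : ∀ (l : ℕ → Ordinal.{0}) (m : ℕ), (∀ i, i < m → l i < γ) →
      leStar (phV (fun i => c (l i)) m A t) (decV (c γ)) = ⊤) :
    accV c γ A t ≤ accV c γ (subA (c γ) A t) t := by
  refine le_iInf fun l => le_iInf fun m => le_iInf fun hl => le_iInf fun k => ?_
  set Y : ℕ → ℕ → B := fun i => c (l i) with hY
  have hb : ∀ k', accV c γ A t ≤ accS Y m A t k' := fun k' =>
    iInf_le_of_le l (iInf_le_of_le m (iInf_le_of_le hl (iInf_le _ k')))
  have h1 : accV c γ A t = accV c γ A t ⊓ leStar (phV Y m A t) (decV (c γ)) := by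
    rw [h l m hl, inf_top_eq]
  rw [h1]
  unfold leStar
  rw [inf_iSup_eq]
  refine iSup_le fun M => ?_
  set W : B := ⨅ n : ℕ, ⨅ _ : M ≤ n, ⨅ v : ℕ, decV (c γ) n v ⇨ phV Y m A t n v with hW
  set k' := max k M with hk'
  have h2 : accV c γ A t ⊓ W = ⨆ v, accV c γ A t ⊓ W ⊓ eqN (decV (c γ) k') v := by
    rw [← inf_iSup_eq, h28_sup_eqN, inf_top_eq]
  rw [h2]
  refine iSup_le fun v => ?_
  have h3 : W ⊓ eqN (decV (c γ) k') v ≤ phV Y m A t k' v := by
    have : W ≤ decV (c γ) k' v ⇨ phV Y m A t k' v :=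
      (iInf₂_le k' (le_max_right k M)).trans (iInf_le _ v)
    rw [le_himp_iff] at this
    exact (inf_le_inf_left W inf_le_left).trans this
  have h4 : accV c γ A t ⊓ W ⊓ eqN (decV (c γ) k') v ≤
      (⨆ n : ℕ, ⨆ _ : PN t k' (nd n) ∧ wt (nd n) < v,
        A n ⊓ ⨅ i : ℕ, ⨅ _ : i < m, (okV t (Y i) ⇨ avV t (Y i) (nd n))) ⊓
        eqN (decV (c γ) k') v := by
    refine le_inf ?_ inf_le_right
    have h5 : accV c γ A t ⊓ W ⊓ eqN (decV (c γ) k') v ≤
        phV Y m A t k' v ⊓ accS Y m A t k' := by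
      refine le_inf ?_ ?_
      · rw [inf_assoc]
        exact inf_le_right.trans h3
      · rw [inf_assoc]
        exact inf_le_left.trans (hb k')
    refine h5.trans ?_
    unfold phV
    rw [inf_sup_right, compl_inf_self, sup_bot_eq]
    exact inf_le_left
  refine h4.trans ?_
  rw [iSup_inf_eq]
  refine iSup_le fun n => ?_
  rw [iSup_inf_eq]
  refine iSup_le fun hn => ?_
  obtain ⟨hn1, hn2⟩ := hn
  have hn3 : PN t k (nd n) := by
    obtain ⟨j, u, hj, e⟩ := hn1
    exact ⟨j, u, (le_max_left k M).trans hj, e⟩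
  refine le_trans ?_ (le_iSup₂ (f := fun (n : ℕ) (_ : PN t k (nd n)) =>
    subA (c γ) A t n ⊓ ⨅ i : ℕ, ⨅ _ : i < m, (okV t (Y i) ⇨ avV t (Y i) (nd n))) n hn3)
  refine le_inf ?_ (inf_le_left.trans inf_le_right)
  refine le_inf (inf_le_left.trans inf_le_left) ?_
  refine le_iInf fun i => le_iInf fun hi => le_iInf fun hti => inf_le_right.trans ?_
  have h6 : (nd n)[i] < v := lt_of_le_of_lt (h28_entry (nd n) i hi) hn2
  refine (h28_eqN_compl (c γ) k' h6).trans (compl_le_compl ?_)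
  exact h28_inc (hc.inc γ) (h28_wt hn1 hti) _

end Gen

end Pool.Agent.Helper50.LF
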